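import Pool.Agent.Lib.H43G.Tut

/-! # H43G, file Bm: plane multigraphs with prescribed degrees, from Theorem G (as the hypothesis `Lim`) -/

set_option autoImplicit false
set_option linter.unusedSectionVars false

namespace H43G

open Finset H98P H63F

variable {V : Type*} [Fintype V] [DecidableEq V]

theorem px_single {e : Sym2 V} (he : ¬ e.IsDiag) (v : V) : px e {v} = if v ∈ e then 1 else 0 := by
  induction e using Sym2.ind with
  | _ a b =>
    rw [Sym2.mk_isDiag_iff] at he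
    by_cases ha : v = a
    · subst ha
      rw [px_one' (mem_singleton_self v) (by rw [mem_singleton]; exact fun h => he h.symm),
        if_pos (Sym2.mem_mk_left _ _)]
    · by_cases hb : v = b
      · subst hb
        rw [Sym2.eq_swap, px_one' (mem_singleton_self v) (by rw [mem_singleton]; exact he),
          if_pos (Sym2.mem_mk_left _ _)]
      · rw [px_zero' (by rw [mem_singleton, mem_singleton]
                         exact ⟨fun h => absurd h.symm ha, fun h => absurd h.symm hb⟩), if_neg]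
        rw [Sym2.mem_iff]
        push Not
        exact ⟨ha, hb⟩

theorem cutw_single {y : Sym2 V → ℝ} (hy : ∀ e, e.IsDiag → y e = 0) (v : V) :
    cutw y {v} = ∑ e with v ∈ e, y e := by
  unfold cutw
  rw [sum_filter]
  refine sum_congr rfl fun e _ => ?_
  by_cases he : e.IsDiag
  · rw [hy e he, zero_mul]
    split_ifs <;> rfl
  · rw [px_single he]
    split_ifs <;> simp

theorem sum_deg {y : Sym2 V → ℝ} (hy : ∀ e, e.IsDiag → y e = 0) :
    ∑ v, cutw y {v} = 2 * ∑ e, y e := by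
  unfold cutw
  rw [sum_comm, mul_sum]
  refine sum_congr rfl fun e _ => ?_
  rw [← mul_sum]
  by_cases he : e.IsDiag
  · rw [hy e he]
    ring
  · rw [mul_comm]
    congr 1
    rw [sum_congr rfl fun v _ => px_single he v]
    induction e using Sym2.ind with
    | _ a b =>
      rw [Sym2.mk_isDiag_iff] at he
      have h1 : ∀ v, (if v ∈ s(a, b) then (1 : ℝ) else 0) = if v ∈ ({a, b} : Finset V) then 1 else 0 := by
        intro v
        simp only [Sym2.mem_iff, mem_insert, mem_singleton]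
      rw [sum_congr rfl fun v _ => h1 v, sum_ite_mem, univ_inter, sum_const, card_pair he]
      norm_num

theorem cutw_smul (t : ℝ) (y : Sym2 V → ℝ) (S : Finset V) : cutw (fun e => t * y e) S = t * cutw y S := by
  unfold cutw
  rw [mul_sum]
  exact sum_congr rfl fun e _ => mul_assoc _ _ _

/-- The conclusion of Theorem G for all requirements. -/
def Lim (cross : Sym2 V → Sym2 V → Prop) : Prop :=
  ∀ r : Finset V → ℝ, (∀ S T : Finset V, ¬ NonX S T →
      r S + r T ≤ r (S ∩ T) + r (S ∪ T) ∨ r S + r T ≤ r (S \ T) + r (T \ S)) →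
    ∀ x0 : Sym2 V → ℝ, (∀ e, 0 ≤ x0 e) → ∑ e, x0 e = 1 →
      (∀ S : Finset V, S.Nonempty → S ≠ univ → r S ≤ cutw x0 S) →
      ∃ G : Finset (Sym2 V), Plane cross G ∧ (∀ v, s(v, v) ∉ G) ∧ ∃ x ∈ Sx G,
        ∀ S : Finset V, S.Nonempty → S ≠ univ → r S ≤ cutw x S

/-- the requirement: `b v` on a vertex, `1` on the other odd sets -/
noncomputable def rb (b : V → ℕ) (S : Finset V) : ℝ :=
  if S.card = 1 then ((∑ v ∈ S, b v : ℕ) : ℝ) else if Odd (∑ v ∈ S, b v) then 1 else 0

theorem rb_ge (b : V → ℕ) (S : Finset V) : (if Odd (∑ v ∈ S, b v) then (1 : ℝ) else 0) ≤ rb b S := by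
  unfold rb
  by_cases h : S.card = 1
  · rw [if_pos h]
    split_ifs with h1
    · have h2 : 1 ≤ ∑ v ∈ S, b v := h1.pos
      exact_mod_cast h2
    · positivity
  · rw [if_neg h]

theorem rb_unc (b : V → ℕ) (S T : Finset V) (h : ¬ NonX S T) :
    rb b S + rb b T ≤ rb b (S ∩ T) + rb b (S ∪ T) ∨ rb b S + rb b T ≤ rb b (S \ T) + rb b (T \ S) := by
  unfold NonX at h
  push Not at h
  obtain ⟨h1, h2, h3, _⟩ := h
  obtain ⟨a, ha⟩ := h1
  rw [mem_inter] at ha
  obtain ⟨c, hc1, hc2⟩ := not_subset.1 h2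
  obtain ⟨d, hd1, hd2⟩ := not_subset.1 h3
  have hS : S.card ≠ 1 := by
    intro hh
    rw [card_eq_one] at hh
    obtain ⟨z, rfl⟩ := hh
    rw [mem_singleton] at hc1
    rw [mem_singleton] at ha
    rw [hc1, ← ha.1] at hc2
    exact hc2 ha.2
  have hT : T.card ≠ 1 := by
    intro hh
    rw [card_eq_one] at hh
    obtain ⟨z, rfl⟩ := hh
    rw [mem_singleton] at hd1
    rw [mem_singleton] at ha
    rw [hd1, ← ha.2] at hd2
    exact hd2 ha.1
  have e1 : rb b S = if Odd (∑ v ∈ S, b v) then 1 else 0 := by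
    unfold rb
    rw [if_neg hS]
  have e2 : rb b T = if Odd (∑ v ∈ T, b v) then 1 else 0 := by
    unfold rb
    rw [if_neg hT]
  have g1 := rb_ge b (S ∩ T)
  have g2 := rb_ge b (S ∪ T)
  have g3 := rb_ge b (S \ T)
  have g4 := rb_ge b (T \ S)
  have s1 : ∑ v ∈ S, b v = ∑ v ∈ S ∩ T, b v + ∑ v ∈ S \ T, b v := by
    rw [← sum_union (disjoint_sdiff_inter S T).symm, union_comm, sdiff_union_inter]
  have s2 : ∑ v ∈ T, b v = ∑ v ∈ S ∩ T, b v + ∑ v ∈ T \ S, b v := by
    rw [inter_comm, ← sum_union (disjoint_sdiff_inter T S).symm, union_comm, sdiff_union_inter]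
  have s3 : ∑ v ∈ S ∪ T, b v = ∑ v ∈ S ∩ T, b v + ∑ v ∈ S \ T, b v + ∑ v ∈ T \ S, b v := by
    rw [← s1, ← sum_union disjoint_sdiff, union_sdiff_self_eq_union]
  rw [e1, e2]
  rw [s1, s2]
  rw [s3] at g2
  generalize ∑ v ∈ S ∩ T, b v = p at *
  generalize ∑ v ∈ S \ T, b v = q at *
  generalize ∑ v ∈ T \ S, b v = s at *
  have n1 : (0 : ℝ) ≤ rb b (S ∩ T) := le_trans (by split_ifs <;> norm_num) g1
  have n2 : (0 : ℝ) ≤ rb b (S ∪ T) := le_trans (by split_ifs <;> norm_num) g2
  have n3 : (0 : ℝ) ≤ rb b (S \ T) := le_trans (by split_ifs <;> norm_num) g3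
  have n4 : (0 : ℝ) ≤ rb b (T \ S) := le_trans (by split_ifs <;> norm_num) g4
  rcases Nat.even_or_odd p with hp | hp <;> rcases Nat.even_or_odd q with hq | hq <;>
    rcases Nat.even_or_odd s with hs | hs
  · left
    rw [if_neg (Nat.not_odd_iff_even.2 (hp.add hq)), if_neg (Nat.not_odd_iff_even.2 (hp.add hs))]
    linarith
  · right
    rw [if_neg (Nat.not_odd_iff_even.2 (hp.add hq)), if_pos (hp.add_odd hs)]
    rw [if_pos hs] at g4
    linarith
  · right
    rw [if_pos (hp.add_odd hq), if_neg (Nat.not_odd_iff_even.2 (hp.add hs))]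
    rw [if_pos hq] at g3
    linarith
  · right
    rw [if_pos (hp.add_odd hq), if_pos (hp.add_odd hs)]
    rw [if_pos hq] at g3
    rw [if_pos hs] at g4
    linarith
  · left
    rw [if_pos (hp.add_even hq), if_pos (hp.add_even hs)]
    rw [if_pos hp] at g1
    rw [if_pos ((hp.add_even hq).add_even hs)] at g2
    linarith
  · left
    rw [if_pos (hp.add_even hq), if_neg (Nat.not_odd_iff_even.2 (hp.add_odd hs))]
    rw [if_pos hp] at g1
    linarith
  · left
    rw [if_neg (Nat.not_odd_iff_even.2 (hp.add_odd hq)), if_pos (hp.add_even hs)]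
    rw [if_pos hp] at g1
    linarith
  · left
    rw [if_neg (Nat.not_odd_iff_even.2 (hp.add_odd hq)), if_neg (Nat.not_odd_iff_even.2 (hp.add_odd hs))]
    linarith

/-- A fixed point free pairing of the twins. -/
theorem exists_inv {n : ℕ} (b : Fin n → ℕ) {B : ℕ} (hB : ∑ v, b v = B + B) (hbal : ∀ v, b v ≤ B) :
    ∃ π : Bl b → Bl b, (∀ p, π (π p) = p) ∧ ∀ p, (π p).1 ≠ p.1 := by
  classical
  let e : Bl b ≃ Fin (∑ v, b v) := finSigmaFinEquiv
  let rot : Fin (∑ v, b v) → Fin (∑ v, b v) := fun k =>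
    if h : (k : ℕ) < B then ⟨k + B, by omega⟩ else ⟨k - B, by omega⟩
  have hrot : ∀ k, rot (rot k) = k := by
    intro k
    apply Fin.ext
    by_cases h : (k : ℕ) < B
    · have h1 : rot k = ⟨k + B, by omega⟩ := dif_pos h
      have h2 : rot ⟨k + B, by omega⟩ = ⟨k + B - B, by omega⟩ := dif_neg (by simp)
      rw [h1, h2]
      simp
    · have h1 : rot k = ⟨k - B, by omega⟩ := dif_neg h
      have h3 : (k : ℕ) - B < B := by omega
      have h2 : rot ⟨k - B, by omega⟩ = ⟨k - B + B, by omega⟩ := dif_pos h3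
      rw [h1, h2]
      simp only
      omega
  refine ⟨fun p => e.symm (rot (e p)), fun p => ?_, fun p hp => ?_⟩
  · simp only [Equiv.apply_symm_apply]
    rw [hrot, Equiv.symm_apply_apply]
  · obtain ⟨v, i⟩ := p
    obtain ⟨⟨w, j⟩, hq⟩ : ∃ q : Bl b, q = e.symm (rot (e ⟨v, i⟩)) := ⟨_, rfl⟩
    simp only at hp
    rw [← hq] at hp
    simp only at hp
    subst hp
    have h1 : e ⟨w, j⟩ = rot (e ⟨w, i⟩) := by
      rw [hq, Equiv.apply_symm_apply]
    have h2 := finSigmaFinEquiv_apply (⟨w, j⟩ : Bl b)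
    have h3 := finSigmaFinEquiv_apply (⟨w, i⟩ : Bl b)
    have h4 : ((e ⟨w, j⟩ : Fin _) : ℕ) = ((rot (e ⟨w, i⟩) : Fin _) : ℕ) := by rw [h1]
    have hj := j.2
    have hi := i.2
    have hw := hbal w
    by_cases h : ((e ⟨w, i⟩ : Fin _) : ℕ) < B
    · have h5 : rot (e ⟨w, i⟩) = ⟨e ⟨w, i⟩ + B, by omega⟩ := dif_pos h
      rw [h5] at h4
      simp only at h4
      have h6 : ((e ⟨w, j⟩ : Fin _) : ℕ) = _ := h2
      have h7 : ((e ⟨w, i⟩ : Fin _) : ℕ) = _ := h3
      rw [h6, h7] at h4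
      simp only at h4
      omega
    · have h5 : rot (e ⟨w, i⟩) = ⟨e ⟨w, i⟩ - B, by omega⟩ := dif_neg h
      rw [h5] at h4
      simp only at h4
      have h6 : ((e ⟨w, j⟩ : Fin _) : ℕ) = _ := h2
      have h7 : ((e ⟨w, i⟩ : Fin _) : ℕ) = _ := h3
      rw [h7] at h
      rw [h6, h7] at h4
      simp only at h4 h
      omega

/-- PLANE MULTIGRAPHS WITH PRESCRIBED DEGREES. -/
theorem plane_b {n : ℕ} {cross : Sym2 (Fin n) → Sym2 (Fin n) → Prop} (hlim : 2 ≤ n → Lim cross)
    (b : Fin n → ℕ) (heven : Even (∑ v, b v)) (hbal : ∀ v, 2 * b v ≤ ∑ v, b v) :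
    ∃ m : Sym2 (Fin n) → ℕ, (∀ e f, m e ≠ 0 → m f ≠ 0 → ¬ cross e f) ∧ (∀ v, m s(v, v) = 0) ∧
      ∀ v, ∑ e with v ∈ e, m e = b v := by
  classical
  obtain ⟨B, hB⟩ := heven
  have hbal' : ∀ v, b v ≤ B := fun v => by
    have := hbal v
    omega
  rcases Nat.eq_zero_or_pos B with hB0 | hBpos
  · refine ⟨fun _ => 0, fun e f h => absurd rfl h, fun _ => rfl, fun v => ?_⟩
    rw [sum_const_zero]
    have := hbal' v
    omega
  have hn : 2 ≤ n := by
    rcases n with _ | _ | n
    · simp at hB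
      omega
    · exfalso
      have h1 : ∑ v : Fin (0 + 1), b v = b 0 := by
        simp
      rw [h1] at hB
      have := hbal' 0
      omega
    · omega
  have hBR : (0 : ℝ) < B := by exact_mod_cast hBpos
  -- the abstract multigraph
  obtain ⟨π, hπ, hne⟩ := exists_inv b hB hbal'
  obtain ⟨m0, hm1, hm2, hm3⟩ := of_inv b π hπ hne
  have hm0d : ∀ e : Sym2 (Fin n), e.IsDiag → (m0 e : ℝ) = 0 := by
    intro e he
    by_contra h
    obtain ⟨p, rfl⟩ := hm1 e (fun h' => h (by rw [h', Nat.cast_zero]))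
    rw [Sym2.mk_isDiag_iff] at he
    exact hne p he.symm
  have hm0c : ∀ v, cutw (fun e => (m0 e : ℝ)) {v} = b v := by
    intro v
    rw [cutw_single hm0d, ← hm3 v]
    push_cast
    rfl
  have hm0s : ∑ e, (m0 e : ℝ) = B := by
    have h1 := sum_deg hm0d
    rw [sum_congr rfl fun v _ => hm0c v, ← Nat.cast_sum, hB] at h1
    push_cast at h1
    linarith
  have hm0o : ∀ S : Finset (Fin n), Odd (∑ v ∈ S, b v) → 1 ≤ cutw (fun e => (m0 e : ℝ)) S := by
    intro S hS
    obtain ⟨p, hp1, hp2⟩ := inv_odd b π hπ hne hS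
    have h1 : (1 : ℝ) ≤ (m0 s(p.1, (π p).1) : ℝ) := by exact_mod_cast Nat.one_le_iff_ne_zero.2 (hm2 p)
    have h2 : (m0 s(p.1, (π p).1) : ℝ) * px s(p.1, (π p).1) S ≤ cutw (fun e => (m0 e : ℝ)) S :=
      single_le_sum (f := fun e => (m0 e : ℝ) * px e S)
        (fun e _ => mul_nonneg (Nat.cast_nonneg _) (px_nonneg' _ _)) (mem_univ _)
    rw [px_one' hp1 hp2, mul_one] at h2
    linarith
  -- Theorem G
  obtain ⟨G, hGp, hGl, x, ⟨hx0, hxs, hx1⟩, hxr⟩ := hlim hn (fun S => (B : ℝ)⁻¹ * rb b S) (by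
      intro S T h
      rcases rb_unc b S T h with h1 | h1
      · left
        have := mul_le_mul_of_nonneg_left h1 (inv_nonneg.2 hBR.le)
        linarith
      · right
        have := mul_le_mul_of_nonneg_left h1 (inv_nonneg.2 hBR.le)
        linarith) (fun e => (B : ℝ)⁻¹ * m0 e) (fun e => by positivity) (by
      rw [← mul_sum, hm0s, inv_mul_cancel₀ hBR.ne']) (by
      intro S _ _
      rw [cutw_smul]
      refine mul_le_mul_of_nonneg_left ?_ (inv_nonneg.2 hBR.le)
      unfold rb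
      split_ifs with h1 h2
      · rw [card_eq_one] at h1
        obtain ⟨v, rfl⟩ := h1
        rw [hm0c, sum_singleton]
      · exact hm0o S h2
      · exact cutw_nonneg (fun e => Nat.cast_nonneg _) S)
  -- the weights `y = B x`
  have hy0 : ∀ e, 0 ≤ (B : ℝ) * x e := fun e => mul_nonneg hBR.le (hx0 e)
  have hys : ∀ e, e ∉ G → (B : ℝ) * x e = 0 := fun e he => by rw [hxs e he, mul_zero]
  have hyd : ∀ e : Sym2 (Fin n), e.IsDiag → (B : ℝ) * x e = 0 := by
    intro e he
    induction e using Sym2.ind with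
    | _ a c =>
      rw [Sym2.mk_isDiag_iff] at he
      subst he
      exact hys _ (hGl a)
  have hyr : ∀ S : Finset (Fin n), S.Nonempty → S ≠ univ → rb b S ≤ cutw (fun e => (B : ℝ) * x e) S := by
    intro S h1 h2
    have h3 := mul_le_mul_of_nonneg_left (hxr S h1 h2) hBR.le
    rw [cutw_smul]
    rwa [← mul_assoc, mul_inv_cancel₀ hBR.ne', one_mul] at h3
  have hsingle : ∀ v : Fin n, ({v} : Finset (Fin n)) ≠ univ := by
    intro v h
    have h1 := congrArg card h
    rw [card_singleton, card_univ, Fintype.card_fin] at h1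
    omega
  have hge : ∀ v ∈ (univ : Finset (Fin n)), (b v : ℝ) ≤ cutw (fun e => (B : ℝ) * x e) {v} := by
    intro v _
    have h1 := hyr {v} ⟨v, mem_singleton_self v⟩ (hsingle v)
    unfold rb at h1
    rw [if_pos (card_singleton v), sum_singleton] at h1
    exact h1
  have hsum : ∑ v, (b v : ℝ) = ∑ v, cutw (fun e => (B : ℝ) * x e) {v} := by
    rw [sum_deg hyd, ← mul_sum, hx1, mul_one, ← Nat.cast_sum, hB]
    push_cast
    ring
  have heq := (sum_eq_sum_iff_of_le hge).1 hsum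
  obtain ⟨m, hmG, hmb⟩ := perfect_b hy0 hys hGl (fun v => (heq v (mem_univ v)).symm)
    (b := b) ⟨B, hB⟩ (by
      intro S h1 h2 h3
      refine le_trans ?_ (hyr S h1 h2)
      have := rb_ge b S
      rwa [if_pos h3] at this)
  refine ⟨m, fun e f he hf => hGp e (hmG e he) f (hmG f hf), fun v => ?_, hmb⟩
  by_contra h
  exact hGl v (hmG _ h)

end H43G
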