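import Pool.Agent.Lib.H63F.D

/-! # H43G, file Inv: multiplicities from a pairing of the twins

`Bl b` = the points `(v, i)`, `i < b v` (`b v` twins of every vertex `v`). A fixed point free involution of the twins
which never pairs twins of the same vertex gives multiplicities with degrees `b`.
-/

set_option autoImplicit false

namespace H43G

open Finset H63F

variable {V : Type*} [Fintype V] [DecidableEq V]

/-- the twins -/
abbrev Bl (b : V → ℕ) : Type _ := Σ v : V, Fin (b v)

theorem card_cls (b : V → ℕ) (v : V) : (univ.filter fun p : Bl b => p.1 = v).card = b v := by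
  classical
  have h : (univ.filter fun p : Bl b => p.1 = v) = univ.image fun i : Fin (b v) => (⟨v, i⟩ : Bl b) := by
    ext p
    rw [mem_filter, mem_image]
    constructor
    · rintro ⟨_, rfl⟩
      exact ⟨p.2, mem_univ _, rfl⟩
    · rintro ⟨i, _, rfl⟩
      exact ⟨mem_univ _, rfl⟩
  rw [h, card_image_of_injective _ sigma_mk_injective, card_univ, Fintype.card_fin]

theorem card_set (b : V → ℕ) (S : Finset V) :
    (univ.filter fun p : Bl b => p.1 ∈ S).card = ∑ v ∈ S, b v := by
  classical
  rw [card_eq_sum_card_fiberwise (f := fun p : Bl b => p.1) (t := S) (fun p hp => by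
    rw [mem_coe, mem_filter] at hp
    exact hp.2)]
  refine sum_congr rfl fun v hv => ?_
  rw [← card_cls b v, filter_filter]
  congr 1
  ext p
  rw [mem_filter, mem_filter]
  constructor
  · exact fun h => ⟨h.1, h.2.2⟩
  · exact fun h => ⟨h.1, by rw [h.2]; exact hv, h.2⟩

/-- Multiplicities from a pairing. -/
theorem of_inv (b : V → ℕ) (π : Bl b → Bl b) (hπ : ∀ p, π (π p) = p) (hne : ∀ p, (π p).1 ≠ p.1) :
    ∃ m : Sym2 V → ℕ, (∀ e, m e ≠ 0 → ∃ p, e = s(p.1, (π p).1)) ∧
      (∀ p, m s(p.1, (π p).1) ≠ 0) ∧ ∀ v, ∑ e with v ∈ e, m e = b v := by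
  classical
  let EM : Finset (Sym2 (Bl b)) := univ.image fun p => s(p, π p)
  refine ⟨fun e => (EM.filter fun f => f.map Sigma.fst = e).card, ?_, ?_, ?_⟩
  · intro e he
    obtain ⟨f, hf⟩ := card_ne_zero.1 he
    rw [mem_filter] at hf
    obtain ⟨p, _, rfl⟩ := mem_image.1 hf.1
    exact ⟨p, by rw [← hf.2, Sym2.map_mk]⟩
  · intro p
    refine card_ne_zero.2 ⟨s(p, π p), ?_⟩
    rw [mem_filter]
    exact ⟨mem_image_of_mem _ (mem_univ _), by rw [Sym2.map_mk]⟩
  · intro v
    have h1 : (EM.filter fun f => v ∈ f.map Sigma.fst).card =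
        ∑ e with v ∈ e, (EM.filter fun f => f.map Sigma.fst = e).card := by
      rw [card_eq_sum_card_fiberwise (f := fun f : Sym2 (Bl b) => f.map Sigma.fst)
        (t := univ.filter fun e => v ∈ e) (fun f hf => by
          rw [mem_coe, mem_filter] at hf
          rw [mem_coe, mem_filter]
          exact ⟨mem_univ _, hf.2⟩)]
      refine sum_congr rfl fun e he => ?_
      rw [mem_filter] at he
      congr 1
      ext f
      rw [mem_filter, mem_filter, mem_filter]
      constructor
      · exact fun h => ⟨h.1.1, h.2⟩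
      · exact fun h => ⟨⟨h.1, by rw [h.2]; exact he.2⟩, h.2⟩
    have h2 : (EM.filter fun f => v ∈ f.map Sigma.fst) =
        (univ.filter fun p : Bl b => p.1 = v).image fun p => s(p, π p) := by
      ext f
      rw [mem_filter, mem_image, mem_image]
      constructor
      · rintro ⟨⟨p, _, rfl⟩, h⟩
        rw [Sym2.map_mk, Sym2.mem_iff] at h
        rcases h with h | h
        · exact ⟨p, mem_filter.2 ⟨mem_univ _, h.symm⟩, rfl⟩
        · exact ⟨π p, mem_filter.2 ⟨mem_univ _, h.symm⟩, by rw [hπ, Sym2.eq_swap]⟩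
      · rintro ⟨p, hp, rfl⟩
        rw [mem_filter] at hp
        refine ⟨⟨p, mem_univ _, rfl⟩, ?_⟩
        rw [Sym2.map_mk, Sym2.mem_iff]
        exact Or.inl hp.2.symm
    rw [← h1, h2, card_image_of_injOn, card_cls]
    intro p hp q hq h
    rw [mem_coe, mem_filter] at hp hq
    rcases Sym2.eq_iff.1 h with ⟨h3, _⟩ | ⟨h3, h4⟩
    · exact h3
    · exfalso
      apply hne q
      rw [← h3, hp.2, hq.2]

/-- A pairing of the twins crosses every odd set. -/
theorem inv_odd (b : V → ℕ) (π : Bl b → Bl b) (hπ : ∀ p, π (π p) = p) (hne : ∀ p, (π p).1 ≠ p.1)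
    {S : Finset V} (hS : Odd (∑ v ∈ S, b v)) : ∃ p, p.1 ∈ S ∧ (π p).1 ∉ S := by
  classical
  by_contra hcon
  push Not at hcon
  rw [← card_set b S] at hS
  have h0 : ∑ _p ∈ (univ.filter fun p : Bl b => p.1 ∈ S), (1 : ZMod 2) = 0 := by
    refine sum_involution (fun p _ => π p) ?_ ?_ ?_ ?_
    · intro p _
      exact CharTwo.add_self_eq_zero 1
    · intro p _ _ h
      exact hne p (by rw [h])
    · intro p hp
      rw [mem_filter] at hp ⊢
      exact ⟨mem_univ _, hcon p hp.2⟩
    · intro p _
      exact hπ p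
  rw [sum_const, nsmul_eq_mul, mul_one, ZMod.natCast_eq_zero_iff] at h0
  exact (Nat.not_even_iff_odd.2 hS) (even_iff_two_dvd.2 h0)

end H43G
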