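import Pool.Agent.Lib.H43G.Inv
import Mathlib.Combinatorics.SimpleGraph.Tutte

/-! # H43G, file Tut: integral multiplicities with degrees `b` from fractional ones (Tutte's theorem for the twins)
-/

set_option autoImplicit false
set_option linter.unusedSectionVars false

namespace H43G

open Finset H63F

variable {V : Type*} [Fintype V] [DecidableEq V]

theorem px_nonneg' (e : Sym2 V) (S : Finset V) : 0 ≤ px e S := by
  unfold px
  split_ifs <;> norm_num

theorem px_zero' {a b : V} {S : Finset V} (h : a ∈ S ↔ b ∈ S) : px s(a, b) S = 0 := by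
  unfold px
  rw [if_neg]
  rintro ⟨u, hu, v, hv, he⟩
  rcases Sym2.eq_iff.1 he with ⟨h1, h2⟩ | ⟨h1, h2⟩
  · subst h1; subst h2; exact hv (h.1 hu)
  · subst h1; subst h2; exact hv (h.2 hu)

theorem px_one' {a b : V} {S : Finset V} (ha : a ∈ S) (hb : b ∉ S) : px s(a, b) S = 1 := by
  unfold px
  rw [if_pos ⟨a, ha, b, hb, rfl⟩]

/-- the classes outside `S` -/
noncomputable def cls (S : Finset V) (c : V → V) (i : V) : Finset V :=
  univ.filter (fun v => v ∉ S ∧ c v = i)

theorem mem_cls {S : Finset V} {c : V → V} {i v : V} : v ∈ cls S c i ↔ v ∉ S ∧ c v = i := by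
  simp [cls]

theorem px_sum_in {S : Finset V} {c : V → V} {a b : V} (ha : a ∈ S) (_hb : b ∉ S) (I : Finset V) :
    ∑ i ∈ I, px s(a, b) (cls S c i) ≤ 1 := by
  have h0 : ∀ i ∈ I, i ≠ c b → px s(a, b) (cls S c i) = 0 := by
    intro i _ hi
    apply px_zero'
    simp only [mem_cls]
    constructor
    · intro h; exact absurd ha h.1
    · intro h; exact absurd h.2.symm hi
  have h1 : ∀ i, px s(a, b) (cls S c i) ≤ 1 := by
    intro i
    unfold px
    split_ifs <;> norm_num
  by_cases hI : c b ∈ I
  · rw [Finset.sum_eq_single_of_mem (c b) hI h0]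
    exact h1 _
  · rw [Finset.sum_eq_zero]
    · norm_num
    · intro i hi
      exact h0 i hi (fun h => hI (h ▸ hi))

theorem key' {G : Finset (Sym2 V)} {y : Sym2 V → ℝ} (h0 : ∀ e, 0 ≤ y e) (hsupp : ∀ e, e ∉ G → y e = 0)
    (hl : ∀ v, s(v, v) ∉ G) {S : Finset V} {c : V → V}
    (hc : ∀ u, u ∉ S → ∀ v, v ∉ S → s(u, v) ∈ G → c u = c v) (I : Finset V) (e : Sym2 V) :
    ∑ i ∈ I, y e * px e (cls S c i) ≤ ∑ v ∈ S, y e * px e {v} := by
  by_cases he : e ∈ G
  · rw [← Finset.mul_sum, ← Finset.mul_sum]
    apply mul_le_mul_of_nonneg_left _ (h0 e)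
    induction e using Sym2.ind with
    | _ a b =>
      have hab : a ≠ b := by
        rintro rfl
        exact hl a he
      have hnn : 0 ≤ ∑ v ∈ S, px s(a, b) {v} := Finset.sum_nonneg (fun v _ => px_nonneg' _ _)
      by_cases ha : a ∈ S
      · by_cases hb : b ∈ S
        · rw [Finset.sum_eq_zero]
          · exact hnn
          · intro i _
            apply px_zero'
            simp only [mem_cls]
            constructor
            · intro h; exact absurd ha h.1
            · intro h; exact absurd hb h.1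
        · refine (px_sum_in ha hb I).trans ?_
          have h1 : px s(a, b) ({a} : Finset V) = 1 :=
            px_one' (Finset.mem_singleton_self a) (by simpa using hab.symm)
          rw [← h1]
          exact Finset.single_le_sum (f := fun v => px s(a, b) ({v} : Finset V))
            (fun v _ => px_nonneg' _ _) ha
      · by_cases hb : b ∈ S
        · rw [Sym2.eq_swap]
          refine (px_sum_in hb ha I).trans ?_
          have h1 : px s(b, a) ({b} : Finset V) = 1 :=
            px_one' (Finset.mem_singleton_self b) (by simpa using hab)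
          rw [← h1]
          exact Finset.single_le_sum (f := fun v => px s(b, a) ({v} : Finset V))
            (fun v _ => px_nonneg' _ _) hb
        · have hcc : c a = c b := hc a ha b hb he
          rw [Finset.sum_eq_zero]
          · exact hnn
          · intro i _
            apply px_zero'
            simp only [mem_cls]
            constructor
            · intro h; exact ⟨hb, hcc ▸ h.2⟩
            · intro h; exact ⟨ha, hcc ▸ h.2⟩
  · simp [hsupp e he]

/-- The cuts around the classes outside `S` have total weight at most the sum of the degrees in `S`. -/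
theorem sum_cls {G : Finset (Sym2 V)} {y : Sym2 V → ℝ} (h0 : ∀ e, 0 ≤ y e) (hsupp : ∀ e, e ∉ G → y e = 0)
    (hl : ∀ v, s(v, v) ∉ G) {S : Finset V} {c : V → V}
    (hc : ∀ u, u ∉ S → ∀ v, v ∉ S → s(u, v) ∈ G → c u = c v) (I : Finset V) :
    ∑ i ∈ I, cutw y (cls S c i) ≤ ∑ v ∈ S, cutw y {v} := by
  unfold cutw
  rw [Finset.sum_comm, Finset.sum_comm (s := S)]
  exact Finset.sum_le_sum (fun e _ => key' h0 hsupp hl hc _ e)

theorem cutw_nonneg {y : Sym2 V → ℝ} (h0 : ∀ e, 0 ≤ y e) (S : Finset V) : 0 ≤ cutw y S :=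
  Finset.sum_nonneg fun e _ => mul_nonneg (h0 e) (px_nonneg' _ _)

/-- the graph on the twins -/
def blow (G : Finset (Sym2 V)) (hl : ∀ v, s(v, v) ∉ G) (b : V → ℕ) : SimpleGraph (Bl b) where
  Adj p q := s(p.1, q.1) ∈ G
  symm := ⟨fun p q h => by rw [Sym2.eq_swap]; exact h⟩
  loopless := ⟨fun p h => hl p.1 h⟩

/-- ODD COMPONENTS of the twin graph minus `u`. -/
theorem odd_count {G : Finset (Sym2 V)} {y : Sym2 V → ℝ} (h0 : ∀ e, 0 ≤ y e)
    (hsupp : ∀ e, e ∉ G → y e = 0) (hl : ∀ v, s(v, v) ∉ G) {b : V → ℕ}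
    (hb : ∀ v, cutw y {v} = (b v : ℝ)) (heven : Even (∑ v, b v))
    (hodd : ∀ S : Finset V, S.Nonempty → S ≠ univ → Odd (∑ v ∈ S, b v) → 1 ≤ cutw y S)
    {W : Type*} [Finite W] (H : SimpleGraph W) (f : W → Bl b) (hf : Function.Injective f)
    (u : Finset (Bl b)) (hu : ∀ w, f w ∉ u) (hu' : ∀ p, p ∉ u → ∃ w, f w = p)
    (hadj : ∀ a c, H.Adj a c ↔ s((f a).1, (f c).1) ∈ G) : H.oddComponents.ncard ≤ u.card := by
  classical
  have hfin : Finite H.ConnectedComponent := inferInstance
  cases nonempty_fintype H.ConnectedComponent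
  set S : Finset V := univ.filter (fun v => ∀ i : Fin (b v), (⟨v, i⟩ : Bl b) ∈ u) with hS
  have memS : ∀ v, v ∈ S ↔ ∀ i : Fin (b v), (⟨v, i⟩ : Bl b) ∈ u := fun v => by
    rw [hS, mem_filter]
    exact ⟨fun h => h.2, fun h => ⟨mem_univ _, h⟩⟩
  clear_value S
  have hfS : ∀ w, (f w).1 ∉ S := fun w h => hu w ((memS _).1 h (f w).2)
  have hcopy : ∀ v, v ∉ S → ∃ w, (f w).1 = v := by
    intro v hv
    rw [memS] at hv
    push Not at hv
    obtain ⟨i, hi⟩ := hv
    obtain ⟨w, hw⟩ := hu' _ hi
    exact ⟨w, by rw [hw]⟩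
  let Gs : SimpleGraph V := {
    Adj := fun v w => s(v, w) ∈ G ∧ v ∉ S ∧ w ∉ S
    symm := ⟨fun v w h => ⟨by rw [Sym2.eq_swap]; exact h.1, h.2.2, h.2.1⟩⟩
    loopless := ⟨fun v h => hl v h.1⟩ }
  let c : V → V := fun v => Quot.out (Gs.connectedComponentMk v)
  have hc1 : ∀ v w, Gs.Reachable v w → c v = c w := by
    intro v w h
    show Quot.out (Gs.connectedComponentMk v) = Quot.out (Gs.connectedComponentMk w)
    rw [SimpleGraph.ConnectedComponent.sound h]
  have hc2 : ∀ v w, c v = c w → Gs.Reachable v w := by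
    intro v w h
    have h1 : Gs.connectedComponentMk (c v) = Gs.connectedComponentMk v := Quot.out_eq _
    have h2 : Gs.connectedComponentMk (c w) = Gs.connectedComponentMk w := Quot.out_eq _
    rw [h, h2] at h1
    exact SimpleGraph.ConnectedComponent.exact h1.symm
  have hcc : ∀ v, v ∉ S → ∀ w, w ∉ S → s(v, w) ∈ G → c v = c w := fun v hv w hw h =>
    hc1 v w (SimpleGraph.Adj.reachable ⟨h, hv, hw⟩)
  let ψ : H →g Gs := ⟨fun w => (f w).1, fun {a d} h => ⟨(hadj a d).1 h, hfS a, hfS d⟩⟩
  have hreach : ∀ w w', H.Reachable w w' → c (f w).1 = c (f w').1 := fun w w' h =>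
    hc1 _ _ (h.map ψ)
  let φ : H.ConnectedComponent → V := fun C => c (f (Quot.out C)).1
  have hφ : ∀ w, φ (H.connectedComponentMk w) = c (f w).1 := by
    intro w
    have h1 : H.connectedComponentMk (Quot.out (H.connectedComponentMk w)) = H.connectedComponentMk w :=
      Quot.out_eq _
    exact hreach _ _ (SimpleGraph.ConnectedComponent.exact h1)
  have hout : ∀ C : H.ConnectedComponent, H.connectedComponentMk (Quot.out C) = C := fun C => Quot.out_eq C
  set O : Finset H.ConnectedComponent := univ.filter fun C => Odd C.supp.ncard with hO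
  have hOc : H.oddComponents.ncard = O.card := by
    rw [← Set.ncard_coe_finset]
    congr 1
    ext C
    rw [hO, mem_coe, mem_filter]
    exact ⟨fun h => ⟨mem_univ _, h⟩, fun h => h.2⟩
  rw [hOc]
  -- one class
  have key : ∀ i : V, ((O.filter fun C => φ C = i).card : ℝ) ≤
      cutw y (cls S c i) + ((u.filter fun p => p.1 ∈ cls S c i).card : ℝ) := by
    intro i
    have hn1 := cutw_nonneg h0 (cls S c i)
    have hn2 : (0 : ℝ) ≤ ((u.filter fun p => p.1 ∈ cls S c i).card : ℝ) := Nat.cast_nonneg _
    rcases (O.filter fun C => φ C = i).eq_empty_or_nonempty with he | ⟨C0, hC0⟩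
    · rw [he, card_empty, Nat.cast_zero]
      linarith
    rw [mem_filter] at hC0
    obtain ⟨hC0O, hC0i⟩ := hC0
    obtain ⟨w0, hw0⟩ : ∃ w0, H.connectedComponentMk w0 = C0 := ⟨_, hout C0⟩
    have hv0 : c (f w0).1 = i := by rw [← hφ, hw0, hC0i]
    by_cases hiso : ∃ x, Gs.Adj (f w0).1 x
    · -- one component only
      obtain ⟨x, hx⟩ := hiso
      obtain ⟨wx, hwx⟩ := hcopy x hx.2.2
      have step : ∀ (v v' : V) (p : Gs.Walk v v') (w : W), (f w).1 = v →
          ∃ w', (f w').1 = v' ∧ H.Reachable w w' := by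
        intro v v' p
        induction p with
        | nil => exact fun w hw => ⟨w, hw, SimpleGraph.Reachable.refl w⟩
        | cons h p ih =>
          intro w hw
          obtain ⟨w1, hw1⟩ := hcopy _ h.2.2
          obtain ⟨w', h1, h2⟩ := ih w1 hw1
          refine ⟨w', h1, SimpleGraph.Reachable.trans (SimpleGraph.Adj.reachable ?_) h2⟩
          rw [hadj, hw, hw1]
          exact h.1
      have all : ∀ w, c (f w).1 = i → H.Reachable w w0 := by
        intro w hw
        obtain ⟨p⟩ := hc2 (f w).1 (f w0).1 (hw.trans hv0.symm)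
        obtain ⟨w', h1, h2⟩ := step _ _ p w rfl
        refine h2.trans ((SimpleGraph.Adj.reachable ?_ : H.Reachable w' wx).trans
          (SimpleGraph.Adj.reachable ?_))
        · rw [hadj, h1, hwx]
          exact hx.1
        · rw [hadj, hwx, Sym2.eq_swap]
          exact hx.1
      have hle1 : (O.filter fun C => φ C = i).card ≤ 1 := by
        rw [card_le_one]
        intro C hC C' hC'
        rw [mem_filter] at hC hC'
        have h1 : c (f (Quot.out C)).1 = i := hC.2
        have h2 : c (f (Quot.out C')).1 = i := hC'.2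
        rw [← hout C, ← hout C']
        exact SimpleGraph.ConnectedComponent.sound ((all _ h1).trans (all _ h2).symm)
      have hle1' : ((O.filter fun C => φ C = i).card : ℝ) ≤ 1 := by exact_mod_cast hle1
      rcases (u.filter fun p => p.1 ∈ cls S c i).eq_empty_or_nonempty with he | hne
      · have hsup : f '' C0.supp = ((univ.filter fun p : Bl b => p.1 ∈ cls S c i : Finset (Bl b)) : Set (Bl b)) := by
          ext p
          rw [Set.mem_image, mem_coe, mem_filter, mem_cls]
          constructor
          · rintro ⟨w, hw, rfl⟩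
            refine ⟨mem_univ _, hfS w, ?_⟩
            rw [SimpleGraph.ConnectedComponent.mem_supp_iff] at hw
            rw [← hφ, hw, hC0i]
          · rintro ⟨_, h1, h2⟩
            have h3 : p ∉ u := by
              intro h
              have : p ∈ (u.filter fun p => p.1 ∈ cls S c i) := mem_filter.2 ⟨h, mem_cls.2 ⟨h1, h2⟩⟩
              rw [he] at this
              exact absurd this (notMem_empty p)
            obtain ⟨w, rfl⟩ := hu' p h3
            refine ⟨w, ?_, rfl⟩
            rw [SimpleGraph.ConnectedComponent.mem_supp_iff, ← hw0]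
            exact SimpleGraph.ConnectedComponent.sound (all w h2)
        have hodd1 : Odd (∑ v ∈ cls S c i, b v) := by
          rw [← card_set b, ← Set.ncard_coe_finset, ← hsup, Set.ncard_image_of_injective _ hf]
          rw [hO, mem_filter] at hC0O
          exact hC0O.2
        have h1 : 1 ≤ cutw y (cls S c i) := by
          refine hodd _ ⟨(f w0).1, mem_cls.2 ⟨hfS w0, hv0⟩⟩ ?_ hodd1
          intro h
          rw [h] at hodd1
          exact Nat.not_even_iff_odd.2 hodd1 heven
        linarith
      · have h1 : (1 : ℝ) ≤ ((u.filter fun p => p.1 ∈ cls S c i).card : ℝ) := by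
          exact_mod_cast card_pos.2 hne
        linarith
    · -- isolated vertex
      push Not at hiso
      have hcl : cls S c i = {(f w0).1} := by
        ext v
        rw [mem_cls, mem_singleton]
        constructor
        · rintro ⟨_, h2⟩
          obtain ⟨p⟩ := hc2 (f w0).1 v (hv0.trans h2.symm)
          cases p with
          | nil => rfl
          | cons h _ => exact absurd h (hiso _)
        · rintro rfl
          exact ⟨hfS w0, hv0⟩
      have h1 : (O.filter fun C => φ C = i).card ≤ b (f w0).1 := by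
        rw [← card_cls b (f w0).1]
        refine card_le_card_of_injOn (fun C => f (Quot.out C)) ?_ ?_
        · intro C hC
          rw [mem_coe, mem_filter] at hC
          rw [mem_coe, mem_filter]
          refine ⟨mem_univ _, ?_⟩
          have h2 : (f (Quot.out C)).1 ∈ cls S c i := mem_cls.2 ⟨hfS _, hC.2⟩
          rw [hcl, mem_singleton] at h2
          exact h2
        · intro C _ C' _ h
          have h2 : Quot.out C = Quot.out C' := hf h
          rw [← hout C, ← hout C', h2]
      rw [hcl, hb] at *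
      have h2 : ((O.filter fun C => φ C = i).card : ℝ) ≤ b (f w0).1 := by exact_mod_cast h1
      linarith
  -- sum over the classes
  have hsum1 : (O.card : ℝ) = ∑ i : V, ((O.filter fun C => φ C = i).card : ℝ) := by
    rw [card_eq_sum_card_fiberwise (f := φ) (t := univ) (fun C _ => mem_coe.2 (mem_univ _))]
    push_cast
    rfl
  have hsum2 : (∑ i : V, ((u.filter fun p => p.1 ∈ cls S c i).card : ℝ)) =
      ((u.filter fun p => p.1 ∉ S).card : ℝ) := by
    rw [card_eq_sum_card_fiberwise (s := u.filter fun p => p.1 ∉ S) (f := fun p : Bl b => c p.1) (t := univ)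
      (fun C _ => mem_coe.2 (mem_univ _))]
    push_cast
    refine sum_congr rfl fun i _ => ?_
    congr 2
    ext p
    rw [mem_filter, mem_filter, mem_filter, mem_cls]
    exact ⟨fun h => ⟨⟨h.1, h.2.1⟩, h.2.2⟩, fun h => ⟨h.1.1, h.1.2, h.2⟩⟩
  have hsum3 : ∑ v ∈ S, cutw y {v} = ((u.filter fun p => p.1 ∈ S).card : ℝ) := by
    have h1 : (univ.filter fun p : Bl b => p.1 ∈ S) = u.filter fun p => p.1 ∈ S := by
      ext p
      rw [mem_filter, mem_filter]
      exact ⟨fun h => ⟨(memS _).1 h.2 p.2, h.2⟩, fun h => ⟨mem_univ _, h.2⟩⟩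
    rw [sum_congr rfl fun v _ => hb v, ← Nat.cast_sum, ← card_set b S, h1]
  have hsum4 : (u.filter fun p => p.1 ∈ S).card + (u.filter fun p => p.1 ∉ S).card = u.card :=
    card_filter_add_card_filter_not _
  have hsum5 := sum_cls h0 hsupp hl hcc univ
  have h1 : (O.card : ℝ) ≤ (u.card : ℝ) := by
    calc (O.card : ℝ) = ∑ i : V, ((O.filter fun C => φ C = i).card : ℝ) := hsum1
      _ ≤ ∑ i : V, (cutw y (cls S c i) + ((u.filter fun p => p.1 ∈ cls S c i).card : ℝ)) :=
          sum_le_sum fun i _ => key i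
      _ = ∑ i : V, cutw y (cls S c i) + ((u.filter fun p => p.1 ∉ S).card : ℝ) := by
          rw [sum_add_distrib, hsum2]
      _ ≤ ((u.filter fun p => p.1 ∈ S).card : ℝ) + ((u.filter fun p => p.1 ∉ S).card : ℝ) := by
          rw [← hsum3]
          linarith
      _ = (u.card : ℝ) := by exact_mod_cast hsum4
  exact_mod_cast h1

/-- INTEGRAL multiplicities from fractional ones. -/
theorem perfect_b {G : Finset (Sym2 V)} {y : Sym2 V → ℝ} (h0 : ∀ e, 0 ≤ y e)
    (hsupp : ∀ e, e ∉ G → y e = 0) (hl : ∀ v, s(v, v) ∉ G) {b : V → ℕ}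
    (hb : ∀ v, cutw y {v} = (b v : ℝ)) (heven : Even (∑ v, b v))
    (hodd : ∀ S : Finset V, S.Nonempty → S ≠ univ → Odd (∑ v ∈ S, b v) → 1 ≤ cutw y S) :
    ∃ m : Sym2 V → ℕ, (∀ e, m e ≠ 0 → e ∈ G) ∧ ∀ v, ∑ e with v ∈ e, m e = b v := by
  classical
  have hM : ∃ M : (blow G hl b).Subgraph, M.IsPerfectMatching := by
    rw [SimpleGraph.tutte]
    intro u hu
    unfold SimpleGraph.IsTutteViolator at hu
    set H := ((⊤ : (blow G hl b).Subgraph).deleteVerts u).coe with hH
    have hmem : ∀ v : Bl b, v ∈ ((⊤ : (blow G hl b).Subgraph).deleteVerts u).verts ↔ v ∉ u := by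
      intro v
      simp
    have h1 := odd_count h0 hsupp hl hb heven hodd H (fun w => (w : Bl b)) Subtype.val_injective
      u.toFinset (fun w h => (hmem _).1 w.2 (Set.mem_toFinset.1 h))
      (fun p hp => ⟨⟨p, (hmem p).2 fun h => hp (Set.mem_toFinset.2 h)⟩, rfl⟩) (by
        intro a d
        rw [hH, SimpleGraph.Subgraph.coe_adj, SimpleGraph.Subgraph.deleteVerts_adj,
          SimpleGraph.Subgraph.top_adj]
        constructor
        · exact fun h => h.2.2.2.2
        · exact fun h => ⟨Set.mem_univ _, (hmem _).1 a.2, Set.mem_univ _, (hmem _).1 d.2, h⟩)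
    rw [← Set.ncard_eq_toFinset_card'] at h1
    omega
  obtain ⟨M, hM1, hM2⟩ := hM
  have hp : ∀ p : Bl b, ∃! q, M.Adj p q := fun p => hM1 (hM2 p)
  choose π h1 h2 using fun p => (hp p)
  have hinv : ∀ p, π (π p) = p := fun p => (h2 (π p) p (h1 p).symm).symm
  have hG : ∀ p, s(p.1, (π p).1) ∈ G := fun p => (h1 p).adj_sub
  obtain ⟨m, hm1, _, hm2⟩ := of_inv b π hinv (fun p h => hl p.1 (by
    have := hG p
    rw [h] at this
    exact this))
  refine ⟨m, fun e he => ?_, hm2⟩
  obtain ⟨p, rfl⟩ := hm1 e he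
  exact hG p

end H43G
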